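import Pool.Agent.AT8.Stmts2
import Pool.Agent.Helper88_AT3.Cgr

/-! Squad AT8, row DCG: the congruence for `vv u χ`. -/

open scoped BigOperators

set_option autoImplicit false

noncomputable section

namespace Pool.Agent.PP.T8.H88

open Pool.Agent.Helper51_AWC Pool.Agent.Helper79_WRA Pool.Agent.PP Pool.Agent.PP.KF
open Pool.Agent.PP.K9 Pool.Agent.PP.K9.H97 Pool.Agent.PP.H75 Pool.Agent.PP.T3 Pool.Agent.PP.T2

attribute [local instance] Ideal.Quotient.field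

/-- DCG -/
theorem dcg (rsv : T3.RsvStmt) : DcgStmt := by
  intro ℓ _ M _ hM G _ _ e V γ b d c ε hD u hu χ hχ
  have hL := hD.ld
  have hb := hD.lc u hu
  have hd := hD.dg u hu
  obtain ⟨h1, h2⟩ := hD.cg u hu
  obtain ⟨-, h3⟩ := H19.omg M G u (fun t : Cu u => b u t) hb.blk.blk.1 u
    (Subgroup.mem_zpowers u)
  obtain ⟨h4, h5⟩ := h3 χ hχ.1
  have h6 := rsv ℓ M hM G e V γ hL u hu.1 (b u) hb χ hχ
  rw [T3.H88.relindex_reg hL hu] at h6
  rw [h6] at h5
  have hCu : (Nat.card (Cu u) : ℂ) ≠ 0 := by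
    exact_mod_cast Nat.card_pos.ne'
  have hd0 : (d u : ℂ) ≠ 0 := by
    exact_mod_cast hd.1.ne'
  have hCV : (Nat.card (Subgroup.centralizer (V : Set G)) : ℂ) ≠ 0 := by
    exact_mod_cast Nat.card_pos.ne'
  have hχ1 : χ 1 ≠ 0 := irr_one_ne hχ.1
  have e1 : vv M b d u χ * ((Nat.card G * c : ℂ) /
      (Nat.card (Subgroup.centralizer (V : Set G)) * χ 1)) =
      (Nat.card G * gbv (Cu u) u (eh M (fun t : Cu u => b u t)) χ / (Nat.card (Cu u) * χ 1)) *
      ((Nat.card (Cu u) * c : ℂ) /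
        (Nat.card (Subgroup.centralizer (V : Set G)) * d u)) := by
    unfold vv gv
    field_simp
  rw [e1]
  refine ⟨(RM M).mul_mem h4 h1, ?_⟩
  rw [rr_mul h4 h1, h5, h2]
  push_cast
  ring

end Pool.Agent.PP.T8.H88
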