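import Pool.Agent.AT8.Stmts2
import Pool.Agent.Helper49_AT3.BRG
import Pool.Agent.Helper62_AT3.CO2
import Pool.Agent.Helper79_AT3.FUS

/-! Squad AT8, row DOR: orthogonality of the `vv u`. -/

open scoped BigOperators

set_option autoImplicit false

noncomputable section

namespace Pool.Agent.PP.T8.H88

open Pool.Agent.Helper51_AWC Pool.Agent.Helper79_WRA Pool.Agent.PP Pool.Agent.PP.KF
open Pool.Agent.PP.K9 Pool.Agent.PP.K9.H97 Pool.Agent.PP.H75 Pool.Agent.PP.T3 Pool.Agent.PP.T2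

attribute [local instance] Ideal.Quotient.field

section tools

variable {G : Type} [Group G] [Finite G] {M : Ideal (integralClosure ℤ ℂ)} [M.IsMaximal]

/-- the conjugate of a local block under an element of the inertial group -/
theorem lc_cj {F : Type} [Field F] {ℓ : ℕ} {e : G → F} {V : Subgroup G} {γ : G → F}
    (hL : Ld ℓ e V γ) {u u' t : G} (ht : t ∈ Tg V γ) (h : t * u' * t⁻¹ = u) {b : G → F}
    (hb : Lc e V γ u' b) : Lc e V γ u (cj t b) := by
  have hbx : Bx (Cu u) (cj t b) := T3.H49.bx_cj h hb.blk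
  have hγ : cj t γ = γ := (cj_eq_iff t γ).2 ht.2
  refine ⟨hbx, ?_, ?_⟩
  · have hres : ∀ (X : Subgroup G) (c : G → F), (∀ x, x ∉ X → c x = 0) →
        (fun s : X => mulF e c s) = mulF (fun s : X => e s) (fun s : X => c s) := by
      intro X c hc
      rw [H20.mulF_comm_of_cl hL.blk.1.1 c, mulF_res X e hc,
        H20.mulF_comm_of_cl (a := fun s : X => e s) (fun x y => hL.blk.1.1 x y)]
    have h1 := hres (Cu u) (cj t b) hbx.supp
    have h2 := hres (Cu u') b hb.blk.supp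
    rw [← h1]
    funext s
    have he : cj t e = e := cj_isCl t hL.blk.1.1
    have h3 : mulF e (cj t b) = cj t (mulF e b) := by
      rw [cj_mulF, he]
    have h4 : t⁻¹ * (s : G) * t ∈ Cu u' := (T3.H49.cu_conj h _).2 s.2
    have h5 := congrFun (h2.trans hb.und) ⟨_, h4⟩
    show mulF e (cj t b) (s : G) = cj t b s
    rw [h3]
    exact h5
  · rw [← T3.H79.cj_br ht.1]
    conv_lhs => rw [← hγ]
    rw [← cj_mulF, hb.gam, hγ]

omit [Finite G] in
theorem irr_conj {χ : G → ℂ} (hχ : χ ∈ Irr G) (x y : G) : χ (y * x * y⁻¹) = χ x := by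
  obtain ⟨n, ρ, -, rfl⟩ := hχ
  exact ρ.char_conj x y

/-- `gv` of the conjugate -/
theorem gv_cj {u u' t : G} (h : t * u' * t⁻¹ = u) {b : G → FF M}
    (hb : IsCl (fun s : Cu u' => b s)) {χ : G → ℂ} (hχ : ∀ x y, χ (y * x * y⁻¹) = χ x) :
    gv M (Cu u) u (cj t b) χ = gv M (Cu u') u' b χ := by
  unfold gv gbv
  have := Fintype.ofFinite G
  classical
  rw [finsum_eq_sum_of_fintype, finsum_eq_sum_of_fintype]
  rw [← Equiv.sum_comp (T3.H62.cjE h).toEquiv]
  refine Finset.sum_congr rfl fun c _ => ?_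
  have h1 := T3.H62.eh_equiv (T3.H62.cjE h) hb c
  have h2 : (fun y : Cu u => b (((T3.H62.cjE h).symm y : Cu u') : G)) =
      (fun s : Cu u => cj t b s) := rfl
  rw [h2] at h1
  show eh M (fun s : Cu u => cj t b s) (T3.H62.cjE h c) *
    χ (u * ((T3.H62.cjE h c : Cu u) : G)) = _
  rw [h1]
  congr 1
  have h3 : ((T3.H62.cjE h c : Cu u) : G) = t * c * t⁻¹ := rfl
  rw [h3, ← hχ (u' * c) t, ← h]
  congr 1
  group

end tools

/-- DOR -/
theorem dor (co1 : T3.Co1Stmt) (co2 : T3.Co2Stmt) (fus : T3.FusStmt) (loc : T3.LocStmt)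
    (rgl : T3.RglStmt) : DorStmt := by
  intro ℓ _ M _ hM G _ _ e V γ b d c ε hD u u' hu hu'
  classical
  have hL := hD.ld
  have hF : GoodF ℓ (FF M) := H50.fld ℓ Fact.out M hM
  have : Finite (Irr G) := (T3.H49.irr_fin G).to_subtype
  have : Fintype (Irr G) := Fintype.ofFinite _
  have hEl : ∀ u, Rg V γ u → El ℓ u := by
    intro u hu
    obtain ⟨n, hn⟩ := hL.tp.pg ⟨u, hu.1⟩
    exact ⟨n, congrArg Subtype.val hn⟩
  have hb := hD.lc u hu
  have hb' := hD.lc u' hu'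
  have hdg := hD.dg u hu
  have hdg' := hD.dg u' hu'
  constructor
  · rintro ⟨t, ht, htu⟩
    have h1 : b u = cj t (b u') := (loc ℓ (FF M) hF G e V γ hL u hu.1).2 _ _ hb
      (lc_cj hL ht htu hb')
    have hcl : IsCl (fun s : Cu u' => b u' s) := hb'.blk.blk.1.1
    -- the degrees
    obtain ⟨b₁, d₁, hb₁, hd₁, hcard, -⟩ := rgl ℓ M hM G e V γ hL u hu
    have hbb : b₁ = b u := (loc ℓ (FF M) hF G e V γ hL u hu.1).2 b₁ (b u) hb₁ hb
    rw [hbb] at hcard
    obtain ⟨b₂, d₂, hb₂, hd₂, hcard', -⟩ := rgl ℓ M hM G e V γ hL u' hu'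
    have hbb' : b₂ = b u' := (loc ℓ (FF M) hF G e V γ hL u' hu'.1).2 b₂ (b u') hb₂ hb'
    rw [hbb'] at hcard'
    have hfin : (IrrE M (fun t : Cu u => b u t)).Finite := T3.H49.irrE_fin M _
    have hfin' : (IrrE M (fun t : Cu u' => b u' t)).Finite := T3.H49.irrE_fin M _
    have hgv : ∀ χ ∈ Irr G, gv M (Cu u) u (b u) χ = gv M (Cu u') u' (b u') χ := by
      intro χ hχ
      rw [h1]
      exact gv_cj htu hcl (irr_conj hχ)
    have c1 := co1 ℓ M hM G u (hEl u hu) (b u) hb.blk.ix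
    have c1' := co1 ℓ M hM G u' (hEl u' hu') (b u') hb'.blk.ix
    have s1 : ∑ᶠ κ ∈ IrrE M (fun t : Cu u => b u t), κ 1 ^ 2 =
        (Nat.card V : ℂ) * (d u : ℂ) ^ 2 := by
      rw [T3.H49.finsum_mem_const_eq hfin (fun κ => κ 1 ^ 2) ((d u : ℂ) ^ 2) (by
        intro κ hκ
        rw [hdg.2 κ hκ]), hcard]
    have s1' : ∑ᶠ κ ∈ IrrE M (fun t : Cu u' => b u' t), κ 1 ^ 2 =
        (Nat.card V : ℂ) * (d u' : ℂ) ^ 2 := by
      rw [T3.H49.finsum_mem_const_eq hfin' (fun κ => κ 1 ^ 2) ((d u' : ℂ) ^ 2) (by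
        intro κ hκ
        rw [hdg'.2 κ hκ]), hcard']
    have hV : (Nat.card V : ℂ) ≠ 0 := by
      exact_mod_cast Nat.card_pos.ne'
    have hdd : (d u : ℂ) = d u' := by
      have h2 : (Nat.card V : ℂ) * (d u : ℂ) ^ 2 = (Nat.card V : ℂ) * (d u' : ℂ) ^ 2 := by
        rw [← s1, ← s1', ← c1, ← c1']
        refine finsum_mem_congr rfl fun χ hχ => ?_
        rw [hgv χ hχ]
      have h3 := mul_left_cancel₀ hV h2
      have h4 : d u ^ 2 = d u' ^ 2 := by exact_mod_cast h3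
      have h5 : d u = d u' := Nat.pow_left_injective (by norm_num) h4
      rw [h5]
    have hd0 : (d u' : ℂ) ≠ 0 := by
      exact_mod_cast hdg'.1.ne'
    have e1 : ∑ᶠ χ ∈ Irr G, vv M b d u χ * starRingEnd ℂ (vv M b d u' χ) =
        ∑ᶠ χ ∈ Irr G, (gv M (Cu u') u' (b u') χ * starRingEnd ℂ (gv M (Cu u') u' (b u') χ)) /
          (d u' : ℂ) ^ 2 := by
      refine finsum_mem_congr rfl fun χ hχ => ?_
      unfold vv
      rw [hgv χ hχ, hdd, map_div₀, Complex.conj_natCast]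
      field_simp
    rw [T3.H49.finsum_mem_fintype] at c1'
    rw [e1, T3.H49.finsum_mem_fintype, ← Finset.sum_div, c1', s1']
    field_simp
  · intro hno
    have h1 := co2 ℓ M hM G u u' (hEl u hu) (hEl u' hu') (b u) (b u') hb.blk.ix hb'.blk.ix (by
      intro x hx
      rcases hb.blk.dich (T3.H49.bx_cj hx hb'.blk) with h2 | h2
      · exfalso
        apply hno
        exact fus ℓ M hM G e V γ hL u hu.1 u' hu'.1 (b u) (b u') hb hb' x hx h2.symm
      · exact h2)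
    have e1 : ∑ᶠ χ ∈ Irr G, vv M b d u χ * starRingEnd ℂ (vv M b d u' χ) =
        ∑ᶠ χ ∈ Irr G, (gv M (Cu u) u (b u) χ * starRingEnd ℂ (gv M (Cu u') u' (b u') χ)) /
          ((d u : ℂ) * (d u' : ℂ)) := by
      refine finsum_mem_congr rfl fun χ _ => ?_
      unfold vv
      rw [map_div₀, Complex.conj_natCast, div_mul_div_comm]
    rw [T3.H49.finsum_mem_fintype] at h1
    rw [e1, T3.H49.finsum_mem_fintype, ← Finset.sum_div, h1, zero_div]

end Pool.Agent.PP.T8.H88
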